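import Mathlib

/-!
# EF1, Pareto optimality and balancedness are incompatible

Two agents, eight goods, strictly positive utilities `(1,1,1,1,1,3,3,3)` and `(1,1,1,1,1,2,2,2)`.
-/

namespace Pool.Agent.Results.MP_e74e46_co.NoBalanced

open Finset

variable {n : ℕ} {M : Type} [Fintype M] [DecidableEq M]

/-- The bundle of agent `i` in the allocation `A` (an assignment of every good to an agent). -/
def bundle (A : M → Fin n) (i : Fin n) : Finset M := univ.filter (fun g => A g = i)

/-- Additive value of a set of goods. -/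
def val (f : M → ℝ) (S : Finset M) : ℝ := ∑ g ∈ S, f g

/-- EF1 with respect to the profile `w`. -/
def EF1 (w : Fin n → M → ℝ) (A : M → Fin n) : Prop :=
  ∀ i j, bundle A j = ∅ ∨
    ∃ g ∈ bundle A j, val (w i) ((bundle A j).erase g) ≤ val (w i) (bundle A i)

/-- Pareto optimality with respect to the profile `u`. -/
def PO (u : Fin n → M → ℝ) (A : M → Fin n) : Prop :=
  ¬ ∃ B : M → Fin n, (∀ i, val (u i) (bundle A i) ≤ val (u i) (bundle B i)) ∧
    ∃ i, val (u i) (bundle A i) < val (u i) (bundle B i)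

/-- Balanced allocations: every bundle has `⌊m/n⌋` or `⌈m/n⌉` goods. -/
def Balanced (A : M → Fin n) : Prop :=
  ∀ i, (bundle A i).card = Fintype.card M / n ∨ (bundle A i).card = (Fintype.card M + n - 1) / n

/-- Integer utilities of the counterexample. -/
def un (i : Fin 2) (g : Fin 8) : ℕ := if g.val < 5 then 1 else if i = 0 then 3 else 2

/-- The utilities `(1,1,1,1,1,3,3,3)` and `(1,1,1,1,1,2,2,2)`. -/
def u (i : Fin 2) (g : Fin 8) : ℝ := (un i g : ℝ)

lemma val_u (i : Fin 2) (S : Finset (Fin 8)) : val (u i) S = ((∑ g ∈ S, un i g : ℕ) : ℝ) := by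
  simp [val, u]

/-- The finite check. -/
lemma check : ∀ A : Fin 8 → Fin 2, (bundle A 0).card = 4 →
    (¬ ∃ g ∈ bundle A 0, ∑ x ∈ (bundle A 0).erase g, un 1 x ≤ ∑ x ∈ bundle A 1, un 1 x) ∨
    (∃ B : Fin 8 → Fin 2, (∀ i, ∑ x ∈ bundle A i, un i x ≤ ∑ x ∈ bundle B i, un i x) ∧
      ∃ i, ∑ x ∈ bundle A i, un i x < ∑ x ∈ bundle B i, un i x) := by
  decide +kernel

/-- There are two agents with strictly positive additive utilities over eight goods such that no
balanced allocation is both EF1 and Pareto optimal. -/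
theorem result :
    ∃ u : Fin 2 → Fin 8 → ℝ, (∀ i g, 0 < u i g) ∧
      ¬ ∃ A : Fin 8 → Fin 2, EF1 u A ∧ PO u A ∧ Balanced A := by
  refine ⟨u, ?_, ?_⟩
  · intro i g
    have : ∀ i g, 0 < un i g := by decide
    unfold u
    exact_mod_cast this i g
  · rintro ⟨A, h1, h2, h3⟩
    have hc : (bundle A 0).card = 4 := by
      have h := h3 0
      rw [Fintype.card_fin] at h
      omega
    rcases check A hc with h | ⟨B, hB1, i, hB2⟩
    · apply h
      rcases h1 1 0 with h4 | ⟨g, hg, h4⟩
      · rw [h4] at hc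
        simp at hc
      · rw [val_u, val_u, Nat.cast_le] at h4
        exact ⟨g, hg, h4⟩
    · refine h2 ⟨B, ?_, i, ?_⟩
      · intro k
        rw [val_u, val_u, Nat.cast_le]
        exact hB1 k
      · rw [val_u, val_u, Nat.cast_lt]
        exact hB2

end Pool.Agent.Results.MP_e74e46_co.NoBalanced
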