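import Mathlib

/-!
# EF1, Pareto optimality and EF1 under a common valuation are incompatible

Two agents, four goods, strictly positive subjective utilities `(1,1,1,1)` and `(1,1,2,2)`, strictly
positive reference valuation `(3,3,1,1)`.
-/

namespace Pool.Agent.Results.MP_e74e46_co.NoCommonEF1

open Finset

variable {n : ℕ} {M : Type} [Fintype M] [DecidableEq M]

/-- The bundle of agent `i` in the allocation `A` (an assignment of every good to an agent). -/
def bundle (A : M → Fin n) (i : Fin n) : Finset M := univ.filter (fun g => A g = i)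

/-- Additive value of a set of goods. -/
def val (f : M → ℝ) (S : Finset M) : ℝ := ∑ g ∈ S, f g

/-- EF1 with respect to the profile `w`. -/
def EF1 (w : Fin n → M → ℝ) (A : M → Fin n) : Prop :=
  ∀ i j, bundle A j = ∅ ∨
    ∃ g ∈ bundle A j, val (w i) ((bundle A j).erase g) ≤ val (w i) (bundle A i)

/-- Pareto optimality with respect to the profile `u`. -/
def PO (u : Fin n → M → ℝ) (A : M → Fin n) : Prop :=
  ¬ ∃ B : M → Fin n, (∀ i, val (u i) (bundle A i) ≤ val (u i) (bundle B i)) ∧
    ∃ i, val (u i) (bundle A i) < val (u i) (bundle B i)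

/-- Integer utilities of the counterexample. -/
def un (i : Fin 2) (g : Fin 4) : ℕ := if i = 1 ∧ 2 ≤ g.val then 2 else 1

/-- Integer reference valuation of the counterexample. -/
def vn (g : Fin 4) : ℕ := if g.val < 2 then 3 else 1

/-- The utilities `(1,1,1,1)` and `(1,1,2,2)`. -/
def u (i : Fin 2) (g : Fin 4) : ℝ := (un i g : ℝ)

/-- The reference valuation `(3,3,1,1)`. -/
def v (g : Fin 4) : ℝ := (vn g : ℝ)

lemma val_u (i : Fin 2) (S : Finset (Fin 4)) : val (u i) S = ((∑ g ∈ S, un i g : ℕ) : ℝ) := by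
  simp [val, u]

lemma val_v (S : Finset (Fin 4)) : val v S = ((∑ g ∈ S, vn g : ℕ) : ℝ) := by
  simp [val, v]

/-- The finite check. -/
lemma check : ∀ A : Fin 4 → Fin 2,
    (∀ i j, bundle A j = ∅ ∨
      ∃ g ∈ bundle A j, ∑ x ∈ (bundle A j).erase g, un i x ≤ ∑ x ∈ bundle A i, un i x) →
    (¬ ∃ B : Fin 4 → Fin 2, (∀ i, ∑ x ∈ bundle A i, un i x ≤ ∑ x ∈ bundle B i, un i x) ∧
      ∃ i, ∑ x ∈ bundle A i, un i x < ∑ x ∈ bundle B i, un i x) →
    ¬ (∀ i j, bundle A j = ∅ ∨
      ∃ g ∈ bundle A j, ∑ x ∈ (bundle A j).erase g, vn x ≤ ∑ x ∈ bundle A i, vn x) := by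
  decide +kernel

/-- There are two agents with strictly positive additive utilities over four goods and a strictly
positive additive reference valuation such that no allocation is EF1 and Pareto optimal with
respect to the utilities and also EF1 with respect to the reference valuation. -/
theorem result :
    ∃ (u : Fin 2 → Fin 4 → ℝ) (v : Fin 4 → ℝ), (∀ i g, 0 < u i g) ∧ (∀ g, 0 < v g) ∧
      ¬ ∃ A : Fin 4 → Fin 2, EF1 u A ∧ PO u A ∧ EF1 (fun _ => v) A := by
  refine ⟨u, v, ?_, ?_, ?_⟩
  · intro i g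
    have : ∀ i g, 0 < un i g := by decide
    unfold u
    exact_mod_cast this i g
  · intro g
    have : ∀ g, 0 < vn g := by decide
    unfold v
    exact_mod_cast this g
  · rintro ⟨A, h1, h2, h3⟩
    refine check A ?_ ?_ ?_
    · intro i j
      rcases h1 i j with h | ⟨g, hg, h⟩
      · exact Or.inl h
      · rw [val_u, val_u, Nat.cast_le] at h
        exact Or.inr ⟨g, hg, h⟩
    · rintro ⟨B, hB1, i, hB2⟩
      refine h2 ⟨B, ?_, i, ?_⟩
      · intro k
        rw [val_u, val_u, Nat.cast_le]
        exact hB1 k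
      · rw [val_u, val_u, Nat.cast_lt]
        exact hB2
    · intro i j
      rcases h3 i j with h | ⟨g, hg, h⟩
      · exact Or.inl h
      · rw [val_v, val_v, Nat.cast_le] at h
        exact Or.inr ⟨g, hg, h⟩

end Pool.Agent.Results.MP_e74e46_co.NoCommonEF1
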